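import Pool.Agent.Helper95.TP.Lift
import Pool.Agent.Helper95.CK.Circle

/-!
Van Kampen obstruction by angle lifts, part 2: walks and the K33 minor.
-/

set_option autoImplicit false

namespace Pool.Agent.Helper95.TP

open Pool.Agent.Helper95.CK

variable {V : Type} {G : SimpleGraph V}

/-- sum of `n z` along a walk -/
def NN (n : V → V → V → ℤ) (z : V) : {u v : V} → G.Walk u v → ℤ
  | _, _, .nil => 0
  | u, _, .cons (v := v) _ w => n z u v + NN n z w

lemma walk_rel1 (n : V → V → V → ℤ) (s : V → V → ℤ)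
    (hrel : ∀ a b c d, G.Adj a b → G.Adj c d → a ≠ c → a ≠ d → b ≠ c → b ≠ d →
      (n c a b + n d a b + n a c d + n b c d - (s c a + s c b + s d a + s d b)) % 2 = 0)
    {a b : V} (hab : G.Adj a b) {u v : V} (w : G.Walk u v) (ha : a ∉ w.support)
    (hb : b ∉ w.support) :
    (n u a b + n v a b + NN n a w + NN n b w - (s u a + s u b + s v a + s v b)) % 2 = 0 := by
  induction w with
  | nil =>
    simp only [NN]
    omega
  | @cons c d v h w ih =>
    rw [SimpleGraph.Walk.support_cons, List.mem_cons, not_or] at ha hb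
    have ih' := ih ha.2 hb.2
    have hd : d ∈ w.support := w.start_mem_support
    have h1 := hrel a b c d hab h ha.1 (fun e => ha.2 (e ▸ hd)) hb.1 (fun e => hb.2 (e ▸ hd))
    simp only [NN]
    omega

lemma walk_rel (n : V → V → V → ℤ) (s : V → V → ℤ)
    (hrel : ∀ a b c d, G.Adj a b → G.Adj c d → a ≠ c → a ≠ d → b ≠ c → b ≠ d →
      (n c a b + n d a b + n a c d + n b c d - (s c a + s c b + s d a + s d b)) % 2 = 0)
    {u v : V} (w : G.Walk u v) {u' v' : V} (w' : G.Walk u' v')
    (hd : ∀ x ∈ w.support, x ∉ w'.support) :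
    (NN n u' w + NN n v' w + NN n u w' + NN n v w' -
      (s u' u + s u' v + s v' u + s v' v)) % 2 = 0 := by
  induction w with
  | nil =>
    simp only [NN]
    omega
  | @cons a b v h w ih =>
    rw [SimpleGraph.Walk.support_cons] at hd
    have ih' := ih (fun x hx => hd x (List.mem_cons_of_mem _ hx))
    have h1 := walk_rel1 n s hrel h w' (hd a List.mem_cons_self)
      (hd b (List.mem_cons_of_mem _ w.start_mem_support))
    simp only [NN]
    omega

lemma final (N : Fin 3 → Fin 3 → Fin 3 → ℤ) (M : Fin 3 → Fin 3 → Fin 3 → ℤ)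
    (sa : Fin 3 → Fin 3 → ℤ) (sb : Fin 3 → Fin 3 → ℤ) (sc : Fin 3 → Fin 3 → ℤ)
    (sd : Fin 3 → Fin 3 → ℤ) (hsb : ∀ i j, i ≠ j → sb i j + sb j i = -1)
    (h : ∀ i j i' j', i ≠ i' → j ≠ j' →
      (N i' i j + M j' i j + N i i' j' + M j i' j' -
        (sa i' i + sc i' j + sd j' i + sb j' j)) % 2 = 0) : False := by
  have b01 := hsb 0 1 (by decide)
  have b02 := hsb 0 2 (by decide)
  have b12 := hsb 1 2 (by decide)
  have a01 := h 0 0 1 1 (by decide) (by decide)
  have a02 := h 0 0 1 2 (by decide) (by decide)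
  have a03 := h 0 1 1 0 (by decide) (by decide)
  have a04 := h 0 1 1 2 (by decide) (by decide)
  have a05 := h 0 2 1 0 (by decide) (by decide)
  have a06 := h 0 2 1 1 (by decide) (by decide)
  have a11 := h 0 0 2 1 (by decide) (by decide)
  have a12 := h 0 0 2 2 (by decide) (by decide)
  have a13 := h 0 1 2 0 (by decide) (by decide)
  have a14 := h 0 1 2 2 (by decide) (by decide)
  have a15 := h 0 2 2 0 (by decide) (by decide)
  have a16 := h 0 2 2 1 (by decide) (by decide)
  have a21 := h 1 0 2 1 (by decide) (by decide)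
  have a22 := h 1 0 2 2 (by decide) (by decide)
  have a23 := h 1 1 2 0 (by decide) (by decide)
  have a24 := h 1 1 2 2 (by decide) (by decide)
  have a25 := h 1 2 2 0 (by decide) (by decide)
  have a26 := h 1 2 2 1 (by decide) (by decide)
  clear h hsb
  omega

end Pool.Agent.Helper95.TP
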