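import Pool.Agent.Helper58.CA.Conv
import Pool.Agent.Helper95.CK.Main

/-!
A uniquely 3-edge-colourable cubic graph has exactly three Hamilton cycles
(forward direction of S09939; no planarity).
-/

set_option autoImplicit false

namespace Pool.Agent.Helper95.TP

open Pool.Agent.Helper58.CA Pool.Agent.Helper95.CK

lemma f3a : ∀ i : Fin 3, i + 1 ≠ i := by decide
lemma f3b : ∀ i : Fin 3, i + 2 ≠ i := by decide
lemma f3c : ∀ i : Fin 3, i + 1 ≠ i + 2 := by decide
lemma f3d : ∀ i k : Fin 3, k ≠ i → k = i + 1 ∨ k = i + 2 := by decide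

/-- proper edge colouring -/
def Pr {V : Type} (G : SimpleGraph V) (c : Sym2 V → Fin 3) : Prop :=
  ∀ u v w : V, G.Adj u v → G.Adj u w → v ≠ w → c s(u, v) ≠ c s(u, w)

variable {V : Type} [Fintype V] [DecidableEq V] {G : SimpleGraph V} [DecidableRel G.Adj]

lemma col_surj (hreg : G.IsRegularOfDegree 3) {c : Sym2 V → Fin 3} (hc : Pr G c) (v : V)
    (i : Fin 3) : ∃ w, G.Adj v w ∧ c s(v, w) = i := by
  have h1 : ((G.neighborFinset v).image (fun w => c s(v, w))).card = 3 := by
    rw [Finset.card_image_of_injOn]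
    · rw [SimpleGraph.card_neighborFinset_eq_degree]; exact hreg v
    · intro a ha b hb hab
      by_contra hne
      rw [Finset.mem_coe, SimpleGraph.mem_neighborFinset] at ha hb
      exact hc v a b ha hb hne hab
  have h2 : (G.neighborFinset v).image (fun w => c s(v, w)) = Finset.univ := by
    apply Finset.eq_univ_of_card
    rw [h1]; rfl
  have h3 : i ∈ (G.neighborFinset v).image (fun w => c s(v, w)) := by
    rw [h2]; exact Finset.mem_univ _
  obtain ⟨w, hw, hi⟩ := Finset.mem_image.1 h3
  rw [SimpleGraph.mem_neighborFinset] at hw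
  exact ⟨w, hw, hi⟩

/-- the edges with colour different from `i` -/
def HH {V : Type} (G : SimpleGraph V) (c : Sym2 V → Fin 3) (i : Fin 3) : SimpleGraph V where
  Adj u v := G.Adj u v ∧ c s(u, v) ≠ i
  symm := ⟨fun u v h => ⟨h.1.symm, by rw [Sym2.eq_swap]; exact h.2⟩⟩
  loopless := ⟨fun u h => h.1.ne rfl⟩

omit [Fintype V] [DecidableEq V] [DecidableRel G.Adj] in
lemma HH_edge (c : Sym2 V → Fin 3) (i : Fin 3) :
    (HH G c i).edgeSet = {e | e ∈ G.edgeSet ∧ c e ≠ i} := by
  ext e
  induction e using Sym2.ind with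
  | _ x y => exact Iff.rfl

lemma HH_deg (hreg : G.IsRegularOfDegree 3) {c : Sym2 V → Fin 3} (hc : Pr G c) (i : Fin 3) (v : V) :
    ((HH G c i).neighborSet v).ncard = 2 := by
  obtain ⟨a, ha, ha'⟩ := col_surj hreg hc v (i + 1)
  obtain ⟨b, hb, hb'⟩ := col_surj hreg hc v (i + 2)
  have n1 := f3a i
  have n2 := f3b i
  have n3 := f3c i
  have n4 := f3d i
  have hab : a ≠ b := by
    rintro rfl
    exact n3 (ha'.symm.trans hb')
  have : (HH G c i).neighborSet v = {a, b} := by
    ext w
    rw [SimpleGraph.mem_neighborSet]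
    show (G.Adj v w ∧ c s(v, w) ≠ i) ↔ _
    simp only [Set.mem_insert_iff, Set.mem_singleton_iff]
    constructor
    · rintro ⟨h1, h2⟩
      rcases n4 _ h2 with h | h
      · left
        by_contra hne
        exact hc v w a h1 ha hne (h.trans ha'.symm)
      · right
        by_contra hne
        exact hc v w b h1 hb hne (h.trans hb'.symm)
    · rintro (rfl | rfl)
      · exact ⟨ha, by rw [ha']; exact n1⟩
      · exact ⟨hb, by rw [hb']; exact n2⟩
  rw [this, Set.ncard_pair hab]

lemma HH_conn (hreg : G.IsRegularOfDegree 3) {c : Sym2 V → Fin 3} (hc : Pr G c)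
    (hu : ∀ c' : Sym2 V → Fin 3, Pr G c' →
      ∃ σ : Equiv.Perm (Fin 3), ∀ e ∈ G.edgeSet, c' e = σ (c e)) (i : Fin 3) :
    (HH G c i).Preconnected := by
  classical
  intro u v
  by_contra hcon
  let X : Set V := {w | (HH G c i).Reachable u w}
  have n1 := f3a i
  have n2 := f3b i
  have n3 := f3c i
  let τ : Equiv.Perm (Fin 3) := Equiv.swap (i + 1) (i + 2)
  have hτ : τ i = i := Equiv.swap_apply_of_ne_of_ne n1.symm n2.symm
  let c' : Sym2 V → Fin 3 := fun e => if ∃ x ∈ X, x ∈ e then τ (c e) else c e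
  have key : ∀ w a, G.Adj w a → c' s(w, a) = if w ∈ X then τ (c s(w, a)) else c s(w, a) := by
    intro w a hwa
    show (if ∃ x ∈ X, x ∈ s(w, a) then τ (c s(w, a)) else c s(w, a)) = _
    by_cases hw : w ∈ X
    · rw [if_pos hw, if_pos ⟨w, hw, Sym2.mem_mk_left w a⟩]
    · rw [if_neg hw]
      by_cases ha : a ∈ X
      · rw [if_pos ⟨a, ha, Sym2.mem_mk_right w a⟩]
        have : c s(w, a) = i := by
          by_contra hne
          apply hw
          have ha' : (HH G c i).Reachable u a := ha
          have h1 : (HH G c i).Adj a w := ⟨hwa.symm, by rw [Sym2.eq_swap]; exact hne⟩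
          exact ha'.trans h1.reachable
        rw [this]; exact hτ
      · rw [if_neg]
        rintro ⟨x, hx, hx'⟩
        rcases Sym2.mem_iff.1 hx' with rfl | rfl
        · exact hw hx
        · exact ha hx
  have hc' : Pr G c' := by
    intro w a b ha hb hab
    rw [key w a ha, key w b hb]
    have := hc w a b ha hb hab
    by_cases hw : w ∈ X
    · rw [if_pos hw, if_pos hw]
      exact fun h => this (τ.injective h)
    · rw [if_neg hw, if_neg hw]
      exact this
  obtain ⟨σ, hσ⟩ := hu c' hc'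
  obtain ⟨a, ha, ha'⟩ := col_surj hreg hc u (i + 1)
  obtain ⟨b, hb, hb'⟩ := col_surj hreg hc v (i + 1)
  have e1 := hσ s(u, a) ha
  have e2 := hσ s(v, b) hb
  have hu' : u ∈ X := SimpleGraph.Reachable.refl u
  have hv' : v ∉ X := hcon
  rw [key u a ha, if_pos hu', ha'] at e1
  rw [key v b hb, if_neg hv', hb'] at e2
  have e3 : τ (i + 1) = i + 2 := Equiv.swap_apply_left _ _
  rw [e3, ← e2] at e1
  exact n3 e1.symm

/-- a Hamilton cycle is the set of the edges of two colours of a proper colouring -/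
lemma ham_col (hreg : G.IsRegularOfDegree 3) {u : V} (p : G.Walk u u)
    (hp : p.IsHamiltonianCycle) : ∃ c' : Sym2 V → Fin 3, Pr G c' ∧
      ∀ e ∈ G.edgeSet, (e ∈ p.edges ↔ c' e ≠ 2) := by
  classical
  have h3 : ∀ v : V, (G.neighborSet v).ncard = 3 := by
    intro v
    rw [Set.ncard_eq_toFinset_card', ← SimpleGraph.neighborFinset_def,
      SimpleGraph.card_neighborFinset_eq_degree]
    exact hreg v
  have hcy := hp.isCycle
  have h3l := hcy.three_le_length
  have heven : Even p.length := by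
    rw [hp.length_eq]
    have := G.even_card_odd_degree_vertices
    have e : (Finset.univ.filter fun v => Odd (G.degree v)) = Finset.univ := by
      apply Finset.filter_true_of_mem
      intro v _
      rw [hreg v]; decide
    rw [e] at this
    exact this
  obtain ⟨H, hHn, pe, ep⟩ := exists_hc h3 p.length p.getVert h3l
    (fun i j hi hj h => hcy.getVert_injOn' (show i ≤ p.length - 1 by omega)
      (show j ≤ p.length - 1 by omega) h)
    (by
      intro v
      obtain ⟨i, hi, hi'⟩ := SimpleGraph.Walk.mem_support_iff_exists_getVert.1 (hp.mem_support v)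
      by_cases h : i = p.length
      · refine ⟨0, by omega, ?_⟩
        rw [← hi, h, p.getVert_length, p.getVert_zero]
      · exact ⟨i, by omega, hi⟩)
    (fun i hi => p.adj_getVert_succ hi) (by rw [p.getVert_length, p.getVert_zero])
  -- next vertex in terms of getVert
  have hnx : ∀ v, p.getVert (H.pos v + 1) = H.nx v := by
    intro v
    rcases H.pnx v with h | ⟨h, h'⟩
    · rw [← h, ep]
    · rw [h', hHn, p.getVert_length, ← p.getVert_zero, ← h, ep]
  have hedge : ∀ e, e ∈ p.edges ↔ ∃ v, e = s(v, H.nx v) := by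
    intro e
    constructor
    · intro he
      obtain ⟨k, hk, hk'⟩ := List.getElem_of_mem he
      rw [SimpleGraph.Walk.getElem_edges] at hk'
      rw [SimpleGraph.Walk.length_edges] at hk
      refine ⟨p.getVert k, ?_⟩
      rw [← hk', ← hnx, pe k hk]
    · rintro ⟨v, rfl⟩
      have hk : H.pos v < p.edges.length := by
        rw [SimpleGraph.Walk.length_edges, ← hHn]; exact H.plt v
      have := List.getElem_mem hk
      rw [SimpleGraph.Walk.getElem_edges, hnx, ep] at this
      exact this
  -- the representation of a cycle edge is unique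
  have huniq : ∀ v w, s(v, H.nx v) = s(w, H.nx w) → v = w := by
    intro v w h
    rcases Sym2.eq_iff.1 h with ⟨h, -⟩ | ⟨h1, h2⟩
    · exact h
    · exfalso
      apply H.d1 w
      rw [← h1, ← h2, H.pvnx]
  let c' : Sym2 V → Fin 3 := fun e => if ∃ v, e = s(v, H.nx v) ∧ Even (H.pos v) then 0
    else if ∃ v, e = s(v, H.nx v) then 1 else 2
  have k1 : ∀ v, c' s(v, H.nx v) = if Even (H.pos v) then 0 else 1 := by
    intro v
    show (if ∃ w, s(v, H.nx v) = s(w, H.nx w) ∧ Even (H.pos w) then (0 : Fin 3)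
      else if ∃ w, s(v, H.nx v) = s(w, H.nx w) then 1 else 2) = _
    by_cases h : Even (H.pos v)
    · rw [if_pos h, if_pos ⟨v, rfl, h⟩]
    · rw [if_neg h, if_neg, if_pos ⟨v, rfl⟩]
      rintro ⟨w, hw, hw'⟩
      rw [← huniq v w hw] at hw'
      exact h hw'
  have k2 : ∀ e, (¬ ∃ v, e = s(v, H.nx v)) → c' e = 2 := by
    intro e he
    show (if ∃ w, e = s(w, H.nx w) ∧ Even (H.pos w) then (0 : Fin 3)
      else if ∃ w, e = s(w, H.nx w) then 1 else 2) = _
    rw [if_neg, if_neg he]
    rintro ⟨w, hw, -⟩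
    exact he ⟨w, hw⟩
  have k3 : ∀ v, c' s(v, H.pv v) = if Even (H.pos v) then 1 else 0 := by
    intro v
    have h1 := k1 (H.pv v)
    rw [H.nxpv, Sym2.eq_swap] at h1
    rw [h1]
    have h2 := H.pnx (H.pv v)
    rw [H.nxpv, hHn] at h2
    by_cases h : Even (H.pos v)
    · have : ¬ Even (H.pos (H.pv v)) := by
        obtain ⟨r, hr⟩ := h
        obtain ⟨t, ht⟩ := heven
        rintro ⟨q, hq⟩
        omega
      rw [if_neg this, if_pos h]
    · have : Even (H.pos (H.pv v)) := by
        rw [Nat.not_even_iff_odd] at h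
        obtain ⟨r, hr⟩ := h
        exact ⟨r, by omega⟩
      rw [if_pos this, if_neg h]
  have k4 : ∀ v, c' s(v, H.c v) = 2 := by
    intro v
    apply k2
    rintro ⟨w, hw⟩
    rcases Sym2.eq_iff.1 hw with ⟨h1, h2⟩ | ⟨h1, h2⟩
    · apply H.d2 v
      rw [h2, h1]
    · apply H.d3 v
      rw [h2, h1, H.pvnx]
  refine ⟨c', ?_, ?_⟩
  · have h01 : (0 : Fin 3) ≠ 1 := by decide
    have h02 : (0 : Fin 3) ≠ 2 := by decide
    have h12 : (1 : Fin 3) ≠ 2 := by decide
    intro v a b ha hb hab
    rcases H.nb v a ha with h | h | h <;> rcases H.nb v b hb with h' | h' | h' <;> rw [h, h']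
    · exact absurd (h.trans h'.symm) hab
    · rw [k1, k3]; split_ifs
      · exact h01
      · exact h01.symm
    · rw [k1, k4]; split_ifs
      · exact h02
      · exact h12
    · rw [k1, k3]; split_ifs
      · exact h01.symm
      · exact h01
    · exact absurd (h.trans h'.symm) hab
    · rw [k3, k4]; split_ifs
      · exact h12
      · exact h02
    · rw [k1, k4]; split_ifs
      · exact h02.symm
      · exact h12.symm
    · rw [k3, k4]; split_ifs
      · exact h12.symm
      · exact h02.symm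
    · exact absurd (h.trans h'.symm) hab
  · intro e _
    rw [hedge]
    constructor
    · rintro ⟨v, rfl⟩
      rw [k1]
      split_ifs <;> decide
    · intro h
      by_contra hcon
      exact h (k2 e hcon)

/-- **S09939, forward direction**: a uniquely 3-edge-colourable cubic graph has exactly three
Hamilton cycles. -/
theorem forward [Nonempty V] (hreg : G.IsRegularOfDegree 3)
    (h : ∃ c : Sym2 V → Fin 3,
        (∀ u v w : V, G.Adj u v → G.Adj u w → v ≠ w → c s(u, v) ≠ c s(u, w)) ∧
        ∀ c' : Sym2 V → Fin 3,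
          (∀ u v w : V, G.Adj u v → G.Adj u w → v ≠ w → c' s(u, v) ≠ c' s(u, w)) →
          ∃ σ : Equiv.Perm (Fin 3), ∀ e ∈ G.edgeSet, c' e = σ (c e)) :
    {S : Set (Sym2 V) | ∃ (u : V) (p : G.Walk u u),
            p.IsHamiltonianCycle ∧ S = {e | e ∈ p.edges}}.ncard = 3 := by
  obtain ⟨c, hc, hu⟩ := h
  have hE : ∀ i, (HH G c i).edgeSet ∈ {S : Set (Sym2 V) | ∃ (u : V) (p : G.Walk u u),
      p.IsHamiltonianCycle ∧ S = {e | e ∈ p.edges}} := by
    intro i
    rw [hc_eq]
    exact ⟨HH G c i, ⟨fun _ _ h => h.1, HH_deg hreg hc i, HH_conn hreg hc hu i⟩, rfl⟩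
  have hne : ∀ i j, i ≠ j → (HH G c i).edgeSet ≠ (HH G c j).edgeSet := by
    intro i j hij he
    obtain ⟨v⟩ : Nonempty V := inferInstance
    obtain ⟨w, hw, hw'⟩ := col_surj hreg hc v j
    have h1 : s(v, w) ∈ (HH G c i).edgeSet := ⟨hw, by rw [hw']; exact hij.symm⟩
    rw [he] at h1
    exact h1.2 hw'
  rw [Set.ncard_eq_three]
  refine ⟨_, _, _, hne 0 1 (by decide), hne 0 2 (by decide), hne 1 2 (by decide), ?_⟩
  apply Set.Subset.antisymm
  · rintro S ⟨u, p, hp, rfl⟩
    obtain ⟨c', hc', hcp⟩ := ham_col hreg p hp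
    obtain ⟨σ, hσ⟩ := hu c' hc'
    have key : ({e | e ∈ p.edges} : Set (Sym2 V)) = (HH G c (σ.symm 2)).edgeSet := by
      rw [HH_edge]
      ext e
      rw [Set.mem_ofPred_eq, Set.mem_ofPred_eq]
      constructor
      · intro he
        have he' := p.edges_subset_edgeSet he
        refine ⟨he', fun h => ?_⟩
        apply (hcp e he').1 he
        rw [hσ e he', h, Equiv.apply_symm_apply]
      · rintro ⟨he', h⟩
        rw [hcp e he', hσ e he']
        intro h2
        apply h
        rw [← h2, Equiv.symm_apply_apply]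
    rw [key]
    have h3 : ∀ i : Fin 3, i = 0 ∨ i = 1 ∨ i = 2 := by decide
    rcases h3 (σ.symm 2) with h | h | h <;> rw [h] <;> simp
  · rintro S (rfl | rfl | rfl)
    · exact hE 0
    · exact hE 1
    · exact hE 2

end Pool.Agent.Helper95.TP
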