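import Mathlib

/-!
Van Kampen obstruction by angle lifts, part 1: continuous logarithms on `ℝ` and on `ℝ × ℝ`.
-/

set_option autoImplicit false

namespace Pool.Agent.Helper95.TP

open Complex

lemma exists_log {A : Type} [TopologicalSpace A] [SimplyConnectedSpace A]
    [LocallyPathConnectedSpace A] (a : A) (F : A → ℂ) (hF : Continuous F) (h0 : ∀ x, F x ≠ 0) :
    ∃ f : A → ℂ, Continuous f ∧ ∀ x, exp (f x) = F x := by
  rcases isCoveringMapOn_exp.existsUnique_continuousMap_lifts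
    (⟨F, hF⟩ : C(A, ℂ)) (exp_log (h0 a)) (fun x => h0 x) with ⟨f, ⟨-, hf⟩, -⟩
  exact ⟨f, f.continuous, fun x => congrFun hf x⟩

lemma exists_log1 (F : ℝ → ℂ) (hF : Continuous F) (h0 : ∀ x, F x ≠ 0) :
    ∃ f : ℝ → ℂ, Continuous f ∧ ∀ x, exp (f x) = F x := exists_log 0 F hF h0

lemma exists_log2 (F : ℝ × ℝ → ℂ) (hF : Continuous F) (h0 : ∀ x, F x ≠ 0) :
    ∃ f : ℝ × ℝ → ℂ, Continuous f ∧ ∀ x, exp (f x) = F x := exists_log 0 F hF h0

/-- the change of a logarithm along a path does not depend on the logarithm -/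
lemma change_unique {f g : ℝ → ℂ} (hf : Continuous f) (hg : Continuous g) {u : ℂ}
    (h : ∀ r, exp (f r) = u * exp (g r)) : f 1 - f 0 = g 1 - g 0 := by
  have key : f 1 - g 1 = f 0 - g 0 := by
    refine isCoveringMap_exp.const_of_comp (g := fun r => f r - g r) (hf.sub hg) ?_ 1 0
    intro a a'
    apply Subtype.ext
    show exp (f a - g a) = exp (f a' - g a')
    rw [exp_sub, exp_sub, h, h, mul_div_assoc, mul_div_assoc, div_self (exp_ne_zero _),
      div_self (exp_ne_zero _)]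
  linear_combination key

/-- A drawing of a graph in the complex plane, all curves are defined on `ℝ`. -/
structure Draw {V : Type} (G : SimpleGraph V) where
  p : V → ℂ
  c : V → V → ℝ → ℂ
  inj : Function.Injective p
  cont : ∀ a b, G.Adj a b → Continuous (c a b)
  c0 : ∀ a b, G.Adj a b → c a b 0 = p a
  c1 : ∀ a b, G.Adj a b → c a b 1 = p b
  pt : ∀ a b v, G.Adj a b → v ≠ a → v ≠ b → ∀ r, c a b r ≠ p v
  dj : ∀ a b x y, G.Adj a b → G.Adj x y → a ≠ x → a ≠ y → b ≠ x → b ≠ y →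
    ∀ r t, c a b r ≠ c x y t

namespace Draw

variable {V : Type} {G : SimpleGraph V} (D : Draw G)

/-- The logarithms of the differences of the points. -/
noncomputable def al (u v : V) : ℂ := log (D.p v - D.p u)

lemma exp_al {u v : V} (h : u ≠ v) : exp (D.al u v) = D.p v - D.p u := by
  unfold al
  exact exp_log (sub_ne_zero.2 (fun e => h (D.inj e).symm))

lemma exists_s {u v : V} (h : u ≠ v) :
    ∃ s : ℤ, D.al u v - D.al v u = (2 * s + 1) * (Real.pi * I) := by
  have h1 : exp (D.al u v) = exp (D.al v u + Real.pi * I) := by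
    rw [exp_add, exp_pi_mul_I, D.exp_al h, D.exp_al h.symm]; ring
  obtain ⟨n, hn⟩ := exp_eq_exp_iff_exists_int.1 h1
  refine ⟨n, ?_⟩
  rw [hn]; ring

/-- half turns -/
noncomputable def s (u v : V) : ℤ := by
  classical
  exact if h : u ≠ v then (D.exists_s h).choose else 0

lemma s_spec {u v : V} (h : u ≠ v) : D.al u v - D.al v u = (2 * D.s u v + 1) * (Real.pi * I) := by
  unfold s
  rw [dif_pos h]
  exact (D.exists_s h).choose_spec

lemma pi_I_ne : (Real.pi * I : ℂ) ≠ 0 :=
  mul_ne_zero (by exact_mod_cast Real.pi_ne_zero) I_ne_zero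

lemma s_swap {u v : V} (h : u ≠ v) : D.s u v + D.s v u = -1 := by
  have h1 := D.s_spec h
  have h2 := D.s_spec h.symm
  have h3 : ((2 * (D.s u v : ℂ) + 1) + (2 * D.s v u + 1)) * (Real.pi * I) = 0 := by
    linear_combination - h1 - h2
  have h4 := (mul_eq_zero.1 h3).resolve_right pi_I_ne
  have h5 : ((2 * (D.s u v) + 1) + (2 * D.s v u + 1) : ℤ) = 0 := by
    exact_mod_cast h4
  omega

lemma exists_lam (z a b : V) (h : G.Adj a b) (ha : z ≠ a) (hb : z ≠ b) :
    ∃ l : ℂ, (∀ f : ℝ → ℂ, ∀ u : ℂ, Continuous f → u ≠ 0 →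
      (∀ r, exp (f r) = u * (D.c a b r - D.p z)) → f 1 - f 0 = l) ∧
      ∃ n : ℤ, l = D.al z b - D.al z a + n * (2 * Real.pi * I) := by
  obtain ⟨g, hg, hg'⟩ := exists_log1 (fun r => D.c a b r - D.p z)
    ((D.cont a b h).sub continuous_const) (fun r => sub_ne_zero.2 (D.pt a b z h ha hb r))
  refine ⟨g 1 - g 0, ?_, ?_⟩
  · intro f u hf _ hfu
    exact change_unique hf hg (fun r => by rw [hfu, hg'])
  · have e : exp (g 1 - g 0) = exp (D.al z b - D.al z a) := by
      rw [exp_sub, exp_sub, hg', hg', D.exp_al hb, D.exp_al ha, D.c1 a b h, D.c0 a b h]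
    exact exp_eq_exp_iff_exists_int.1 e

/-- the change of the logarithm along an edge, seen from `z` -/
noncomputable def lam (z a b : V) : ℂ := by
  classical
  exact if h : G.Adj a b ∧ z ≠ a ∧ z ≠ b then (D.exists_lam z a b h.1 h.2.1 h.2.2).choose else 0

lemma lam_spec {z a b : V} (h : G.Adj a b) (ha : z ≠ a) (hb : z ≠ b) {f : ℝ → ℂ} {u : ℂ}
    (hf : Continuous f) (hu : u ≠ 0) (hfu : ∀ r, exp (f r) = u * (D.c a b r - D.p z)) :
    f 1 - f 0 = D.lam z a b := by
  unfold lam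
  rw [dif_pos ⟨h, ha, hb⟩]
  exact (D.exists_lam z a b h ha hb).choose_spec.1 f u hf hu hfu

/-- number of turns along an edge, seen from `z` -/
noncomputable def n (z a b : V) : ℤ := by
  classical
  exact if h : G.Adj a b ∧ z ≠ a ∧ z ≠ b then
    (D.exists_lam z a b h.1 h.2.1 h.2.2).choose_spec.2.choose else 0

lemma n_spec {z a b : V} (h : G.Adj a b) (ha : z ≠ a) (hb : z ≠ b) :
    D.lam z a b = D.al z b - D.al z a + D.n z a b * (2 * Real.pi * I) := by
  unfold lam n
  rw [dif_pos ⟨h, ha, hb⟩, dif_pos ⟨h, ha, hb⟩]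
  exact (D.exists_lam z a b h ha hb).choose_spec.2.choose_spec

lemma square {a b c d : V} (hab : G.Adj a b) (hcd : G.Adj c d) (h1 : a ≠ c) (h2 : a ≠ d)
    (h3 : b ≠ c) (h4 : b ≠ d) :
    D.lam c a b + D.lam b c d = D.lam a c d + D.lam d a b := by
  obtain ⟨f, hf, hf'⟩ := exists_log2 (fun x => D.c c d x.2 - D.c a b x.1)
    (((D.cont c d hcd).comp continuous_snd).sub ((D.cont a b hab).comp continuous_fst))
    (fun x => sub_ne_zero.2 (D.dj a b c d hab hcd h1 h2 h3 h4 x.1 x.2).symm)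
  have e1 : f (1, 0) - f (0, 0) = D.lam c a b :=
    D.lam_spec (f := fun r => f (r, 0)) (u := -1) hab h1.symm h3.symm (by fun_prop) (by norm_num)
      (fun r => by rw [hf', D.c0 c d hcd]; ring)
  have e2 : f (1, 1) - f (0, 1) = D.lam d a b :=
    D.lam_spec (f := fun r => f (r, 1)) (u := -1) hab h2.symm h4.symm (by fun_prop) (by norm_num)
      (fun r => by rw [hf', D.c1 c d hcd]; ring)
  have e3 : f (0, 1) - f (0, 0) = D.lam a c d :=
    D.lam_spec (f := fun t => f (0, t)) (u := 1) hcd h1 h2 (by fun_prop) (by norm_num)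
      (fun r => by rw [hf', D.c0 a b hab]; ring)
  have e4 : f (1, 1) - f (1, 0) = D.lam b c d :=
    D.lam_spec (f := fun t => f (1, t)) (u := 1) hcd h3 h4 (by fun_prop) (by norm_num)
      (fun r => by rw [hf', D.c1 a b hab]; ring)
  rw [← e1, ← e2, ← e3, ← e4]; ring

/-- the van Kampen relation -/
lemma rel {a b c d : V} (hab : G.Adj a b) (hcd : G.Adj c d) (h1 : a ≠ c) (h2 : a ≠ d)
    (h3 : b ≠ c) (h4 : b ≠ d) :
    (D.n c a b + D.n d a b + D.n a c d + D.n b c d -
      (D.s c a + D.s c b + D.s d a + D.s d b)) % 2 = 0 := by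
  have e := D.square hab hcd h1 h2 h3 h4
  rw [D.n_spec hab h1.symm h3.symm, D.n_spec hcd h3 h4, D.n_spec hcd h1 h2,
    D.n_spec hab h2.symm h4.symm] at e
  have s1 := D.s_spec (u := c) (v := b) h3.symm
  have s2 := D.s_spec (u := c) (v := a) h1.symm
  have s3 := D.s_spec (u := b) (v := d) h4
  have s4 := D.s_spec (u := a) (v := d) h2
  have t3 := D.s_swap (u := b) (v := d) h4
  have t4 := D.s_swap (u := a) (v := d) h2
  have key : ((D.s c b : ℂ) - D.s c a + D.s b d - D.s a d +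
      (D.n c a b + D.n b c d - D.n a c d - D.n d a b)) * (Real.pi * I) = 0 := by
    linear_combination (e - s1 + s2 - s3 + s4) / 2
  have key' := (mul_eq_zero.1 key).resolve_right pi_I_ne
  have key2 : D.s c b - D.s c a + D.s b d - D.s a d +
      (D.n c a b + D.n b c d - D.n a c d - D.n d a b) = 0 := by
    exact_mod_cast key'
  omega

end Draw

end Pool.Agent.Helper95.TP
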