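import Pool.Agent.Helper95.TP.Alg

/-!
Van Kampen obstruction by angle lifts, part 3: a graph drawn in the plane has no K33 minor.
-/

set_option autoImplicit false

namespace Pool.Agent.Helper95.TP

open Pool.Agent.Helper95.CK

variable {V : Type} {G : SimpleGraph V}

lemma exists_walk {S : Set V} (hS : (G.induce S).Connected) {a x : V} (ha : a ∈ S) (hx : x ∈ S) :
    ∃ w : G.Walk a x, ∀ z ∈ w.support, z ∈ S := by
  obtain ⟨w⟩ := hS.preconnected ⟨a, ha⟩ ⟨x, hx⟩
  have key : ∀ {y z : S} (w : (G.induce S).Walk y z),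
      ∃ w' : G.Walk y.1 z.1, ∀ t ∈ w'.support, t ∈ S := by
    intro y z w
    induction w with
    | @nil y =>
      refine ⟨SimpleGraph.Walk.nil, ?_⟩
      intro t ht
      rw [SimpleGraph.Walk.support_nil, List.mem_singleton] at ht
      rw [ht]; exact y.2
    | @cons y y' z h w ih =>
      obtain ⟨w', hw'⟩ := ih
      have h' : G.Adj y.1 y'.1 := h
      refine ⟨SimpleGraph.Walk.cons h' w', ?_⟩
      intro t ht
      rw [SimpleGraph.Walk.support_cons, List.mem_cons] at ht
      rcases ht with ht | ht
      · rw [ht]; exact y.2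
      · exact hw' t ht
  exact key w

/-- **A graph drawn in the plane has no K33 minor.** -/
theorem Draw.not_hasK33 (D : Draw G) : ¬ HasK33 G := by
  rintro ⟨f, g, hf, hg, df, dg, dfg, hfg⟩
  have ha : ∀ i, ∃ a, a ∈ f i := fun i => by
    obtain ⟨a, ha⟩ := (hf i).nonempty
    exact ⟨a, ha⟩
  have hb : ∀ j, ∃ b, b ∈ g j := fun j => by
    obtain ⟨b, hb⟩ := (hg j).nonempty
    exact ⟨b, hb⟩
  choose a ha using ha
  choose b hb using hb
  have hW : ∀ i j, ∃ w : G.Walk (a i) (b j), ∀ z ∈ w.support, z ∈ f i ∨ z ∈ g j := by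
    intro i j
    obtain ⟨x, hx, y, hy, hxy⟩ := hfg i j
    obtain ⟨w1, h1⟩ := exists_walk (hf i) (ha i) hx
    obtain ⟨w2, h2⟩ := exists_walk (hg j) hy (hb j)
    refine ⟨w1.append (SimpleGraph.Walk.cons hxy w2), ?_⟩
    intro z hz
    rw [SimpleGraph.Walk.mem_support_append_iff, SimpleGraph.Walk.support_cons,
      List.mem_cons] at hz
    rcases hz with hz | hz | hz
    · exact Or.inl (h1 z hz)
    · rw [hz]; exact Or.inl hx
    · exact Or.inr (h2 z hz)
  choose W hW using hW
  have hdis : ∀ i j i' j', i ≠ i' → j ≠ j' → ∀ z ∈ (W i j).support, z ∉ (W i' j').support := by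
    intro i j i' j' hi hj z hz hz'
    rcases hW i j z hz with h | h <;> rcases hW i' j' z hz' with h' | h'
    · exact Set.disjoint_left.1 (df i i' hi) h h'
    · exact Set.disjoint_left.1 (dfg i j') h h'
    · exact Set.disjoint_left.1 (dfg i' j) h' h
    · exact Set.disjoint_left.1 (dg j j' hj) h h'
  have hrel := fun (a b c d : V) (hab : G.Adj a b) (hcd : G.Adj c d) (h1 : a ≠ c) (h2 : a ≠ d)
    (h3 : b ≠ c) (h4 : b ≠ d) => D.rel hab hcd h1 h2 h3 h4
  refine final (fun k i j => NN D.n (a k) (W i j)) (fun k i j => NN D.n (b k) (W i j))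
    (fun i j => D.s (a i) (a j)) (fun i j => D.s (b i) (b j)) (fun i j => D.s (a i) (b j))
    (fun i j => D.s (b i) (a j)) ?_ ?_
  · intro i j hij
    exact D.s_swap (fun e => Set.disjoint_left.1 (dg i j hij) (hb i) (e ▸ hb j))
  · intro i j i' j' hi hj
    exact walk_rel D.n D.s hrel (W i j) (W i' j') (hdis i j i' j' hi hj)

/-- the plane `ℝ × ℝ` as `ℂ` -/
noncomputable def toC (x : ℝ × ℝ) : ℂ := ⟨x.1, x.2⟩

lemma toC_inj : Function.Injective toC := by
  intro x y h
  have h1 := congrArg Complex.re h
  have h2 := congrArg Complex.im h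
  exact Prod.ext h1 h2

lemma toC_cont : Continuous toC := by
  have : toC = fun x : ℝ × ℝ => Complex.equivRealProdCLM.symm x := by
    funext x
    apply Complex.ext
    · simp [toC]
    · simp [toC]
  rw [this]
  exact Complex.equivRealProdCLM.symm.continuous

/-- The drawings of the frozen statement S06929. -/
theorem no_K33_of_drawing
    (h : ∃ p : V → ℝ × ℝ, Function.Injective p ∧
      ∃ γ : V → V → ℝ → ℝ × ℝ,
        (∀ u v : V, G.Adj u v →
            ContinuousOn (γ u v) (Set.Icc (0:ℝ) 1) ∧
            Set.InjOn (γ u v) (Set.Icc (0:ℝ) 1) ∧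
            γ u v 0 = p u ∧ γ u v 1 = p v) ∧
        (∀ u v w : V, ∀ r ∈ Set.Icc (0:ℝ) 1,
            G.Adj u v → γ u v r = p w → w = u ∨ w = v) ∧
        (∀ u v x y : V, ∀ r ∈ Set.Icc (0:ℝ) 1, ∀ t ∈ Set.Icc (0:ℝ) 1,
            G.Adj u v → G.Adj x y → Sym2.mk (u, v) ≠ Sym2.mk (x, y) →
            γ u v r = γ x y t → ∃ w : V, γ u v r = p w)) : ¬ HasK33 G := by
  obtain ⟨p, hp, γ, h1, h2, h3⟩ := h
  have hI : ∀ r : ℝ, ((Set.projIcc (0:ℝ) 1 zero_le_one r : Set.Icc (0:ℝ) 1) : ℝ) ∈
      Set.Icc (0:ℝ) 1 := fun r => (Set.projIcc (0:ℝ) 1 zero_le_one r).2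
  let D : Draw G :=
    { p := fun v => toC (p v)
      c := fun a b r => toC (γ a b (Set.projIcc (0:ℝ) 1 zero_le_one r : Set.Icc (0:ℝ) 1))
      inj := toC_inj.comp hp
      cont := by
        intro a b hab
        refine toC_cont.comp ?_
        exact (h1 a b hab).1.comp_continuous
          (continuous_subtype_val.comp continuous_projIcc) hI
      c0 := by
        intro a b hab
        rw [Set.projIcc_left]
        show toC (γ a b 0) = _
        rw [(h1 a b hab).2.2.1]
      c1 := by
        intro a b hab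
        rw [Set.projIcc_right]
        show toC (γ a b 1) = _
        rw [(h1 a b hab).2.2.2]
      pt := by
        intro a b v hab ha hb r e
        rcases h2 a b v _ (hI r) hab (toC_inj e) with h | h
        · exact ha h
        · exact hb h
      dj := by
        intro a b x y hab hxy e1 e2 e3 e4 r t e
        obtain ⟨w, hw⟩ := h3 a b x y _ (hI r) _ (hI t) hab hxy (by
          intro h
          have h' := congrFun h (a, b)
          rcases Sym2.eq_iff.1 h' with ⟨h, -⟩ | ⟨-, h⟩
          · exact e1 (congrArg Prod.fst h)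
          · exact e1 (congrArg Prod.fst h)) (toC_inj e)
        have g1 := h2 a b w _ (hI r) hab hw
        have g2 := h2 x y w _ (hI t) hxy ((toC_inj e).symm.trans hw)
        rcases g1 with rfl | rfl <;> rcases g2 with h | h
        · exact e1 h
        · exact e2 h
        · exact e3 h
        · exact e4 h }
  exact D.not_hasK33

/-- The drawings of the frozen statement S09939. -/
theorem no_K33_of_paths
    (h : ∃ f : V → ℝ × ℝ, Function.Injective f ∧ ∃ γ : ∀ u v : V, Path (f u) (f v),
      (∀ u v w : V, G.Adj u v → f w ∈ Set.range ⇑(γ u v) → w = u ∨ w = v) ∧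
      (∀ u v w x : V, G.Adj u v → G.Adj w x → s(u, v) ≠ s(w, x) →
        Set.range ⇑(γ u v) ∩ Set.range ⇑(γ w x) ⊆ {f u, f v})) : ¬ HasK33 G := by
  obtain ⟨f, hf, γ, h2, h3⟩ := h
  let D : Draw G :=
    { p := fun v => toC (f v)
      c := fun a b r => toC ((γ a b).extend r)
      inj := toC_inj.comp hf
      cont := fun a b _ => toC_cont.comp (γ a b).continuous_extend
      c0 := fun a b _ => by rw [Path.extend_zero]
      c1 := fun a b _ => by rw [Path.extend_one]
      pt := by
        intro a b v hab ha hb r e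
        have h0 : f v ∈ Set.range ⇑(γ a b) := by
          rw [← toC_inj e, ← (γ a b).extend_range]
          exact ⟨r, rfl⟩
        rcases h2 a b v hab h0 with h | h
        · exact ha h
        · exact hb h
      dj := by
        intro a b x y hab hxy e1 e2 e3 e4 r t e
        have m1 : (γ a b).extend r ∈ Set.range ⇑(γ a b) := by
          rw [← (γ a b).extend_range]
          exact ⟨r, rfl⟩
        have m2 : (γ a b).extend r ∈ Set.range ⇑(γ x y) := by
          rw [toC_inj e, ← (γ x y).extend_range]
          exact ⟨t, rfl⟩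
        have m3 := h3 a b x y hab hxy (by
          intro h
          rcases Sym2.eq_iff.1 h with ⟨h, -⟩ | ⟨h, -⟩
          · exact e1 h
          · exact e2 h) ⟨m1, m2⟩
        rcases m3 with m3 | m3
        · rw [m3] at m2
          rcases h2 x y a hxy m2 with h | h
          · exact e1 h
          · exact e2 h
        · rw [m3] at m2
          rcases h2 x y b hxy m2 with h | h
          · exact e3 h
          · exact e4 h }
  exact D.not_hasK33

end Pool.Agent.Helper95.TP
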